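import Mathlib

/-!
# Cocycles with values in modules over finite `p`-groups
-/

set_option autoImplicit false

namespace Pool.Agent.H517.M

variable {p : ℕ} [hp : Fact p.Prime]

section dual

variable {M : Type*} [AddCommGroup M] [Module (ZMod p) M] (Q : Subgroup (M ≃ₗ[ZMod p] M))
  (W : Submodule (ZMod p) M) (hW : ∀ g ∈ Q, ∀ w ∈ W, g w ∈ W)

/-- the contragredient action -/
@[reducible] def dualAct : MulAction Q (W →ₗ[ZMod p] ZMod p) where
  smul g l := l.comp (((g⁻¹ : Q) : M ≃ₗ[ZMod p] M).toLinearMap.restrict (p := W) (q := W)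
    fun w hw => hW _ (g⁻¹ : Q).2 w hw)
  one_smul l := by
    ext w
    show l _ = l _
    rfl
  mul_smul g g' l := by
    ext w
    show l _ = l _
    congr 1

include hW in
/-- an invariant functional -/
lemma exists_functional [Finite M] (hQ : IsPGroup p Q) (hne : W ≠ ⊥) :
    ∃ l : W →ₗ[ZMod p] ZMod p, l ≠ 0 ∧ ∀ g ∈ Q, ∀ (w : W) (w' : W), (w' : M) = g w → l w' = l w := by
  let _ : MulAction Q (W →ₗ[ZMod p] ZMod p) := dualAct Q W hW
  have hfin : Finite (W →ₗ[ZMod p] ZMod p) := by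
    apply Finite.of_injective (fun l : W →ₗ[ZMod p] ZMod p => (l : W → ZMod p))
    exact DFunLike.coe_injective
  obtain ⟨l0, hl0⟩ : ∃ l : W →ₗ[ZMod p] ZMod p, l ≠ 0 := by
    by_contra hcon
    push Not at hcon
    apply hne
    rw [Submodule.eq_bot_iff]
    intro x hx
    have h1 : (⟨x, hx⟩ : W) = 0 := by
      rw [← Module.forall_dual_apply_eq_zero_iff (ZMod p)]
      intro φ
      rw [hcon φ]
      rfl
    exact congrArg Subtype.val h1
  have hcard : p ∣ Nat.card (W →ₗ[ZMod p] ZMod p) := by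
    have h1 : addOrderOf l0 = p := by
      apply addOrderOf_eq_prime
      · ext w
        show (p • l0) w = 0
        rw [LinearMap.smul_apply, nsmul_eq_mul, CharP.cast_eq_zero, zero_mul]
      · exact hl0
    have h2 := addOrderOf_dvd_natCard l0
    generalize Nat.card (W →ₗ[ZMod p] ZMod p) = c at h2 ⊢
    rwa [h1] at h2
  have h0 : (0 : W →ₗ[ZMod p] ZMod p) ∈ MulAction.fixedPoints Q (W →ₗ[ZMod p] ZMod p) := by
    intro g
    ext w
    rfl
  obtain ⟨l, hl, hne0⟩ := hQ.exists_fixed_point_of_prime_dvd_card_of_fixed_point _ hcard h0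
  refine ⟨l, fun h => hne0 h.symm, fun g hg w w' hw' => ?_⟩
  have h1 := hl (⟨g, hg⟩⁻¹ : Q)
  have h2 := LinearMap.congr_fun h1 w
  rw [← h2]
  show l w' = l _
  congr 1
  apply Subtype.ext
  show (w' : M) = (((⟨g, hg⟩⁻¹ : Q)⁻¹ : Q) : M ≃ₗ[ZMod p] M) w
  rw [inv_inv]
  exact hw'

end dual

/-- **Dévissage.** -/
theorem dev {G : Type*} [Group G] [TopologicalSpace G] {M : Type*} [AddCommGroup M]
    [Module (ZMod p) M] [Finite M] (P : G →* (M ≃ₗ[ZMod p] M))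
    (hP : ∀ σ, ∃ k, (P σ) ^ p ^ k = 1) (Z : Set G)
    (hyp : ∀ h : G → ZMod p, IsLocallyConstant h → (∀ σ τ, h (σ * τ) = h σ + h τ) →
      (∀ σ ∈ Z, h σ = 0) → ∀ σ, h σ = 0)
    (b : G → M) (hb : IsLocallyConstant b) (hcoc : ∀ σ τ, b (σ * τ) = b σ + P σ (b τ))
    (hZ : ∀ σ ∈ Z, b σ = 0) : ∀ σ, b σ = 0 := by
  classical
  have hQ : IsPGroup p P.range := by
    rintro ⟨g, σ, rfl⟩
    obtain ⟨k, hk⟩ := hP σ
    exact ⟨k, Subtype.ext hk⟩
  let 𝒲 : Set (Submodule (ZMod p) M) := {W | (∀ σ, ∀ w ∈ W, P σ w ∈ W) ∧ ∀ σ, b σ ∈ W}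
  have hfin : Finite (Submodule (ZMod p) M) :=
    Finite.of_injective (fun W : Submodule (ZMod p) M => (W : Set M)) SetLike.coe_injective
  have hne : 𝒲.Nonempty := ⟨⊤, fun _ _ _ => trivial, fun _ => trivial⟩
  obtain ⟨W, hW, hmin⟩ := (Set.toFinite 𝒲).exists_minimal hne
  have hbot : W = ⊥ := by
    by_contra hcon
    obtain ⟨l, hl0, hl⟩ := exists_functional P.range W (by
      rintro g ⟨σ, rfl⟩ w hw
      exact hW.1 σ w hw) hQ hcon
    let F : M → ZMod p := fun m => if h : m ∈ W then l ⟨m, h⟩ else 0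
    have hF : ∀ σ, F (b σ) = l ⟨b σ, hW.2 σ⟩ := fun σ => dif_pos (hW.2 σ)
    have h0 := hyp (F ∘ b) (hb.comp F) (by
      intro σ τ
      show F (b (σ * τ)) = F (b σ) + F (b τ)
      rw [hF, hF, hF]
      have h1 : (⟨b (σ * τ), hW.2 (σ * τ)⟩ : W) = ⟨b σ, hW.2 σ⟩ +
          ⟨P σ (b τ), hW.1 σ _ (hW.2 τ)⟩ := Subtype.ext (hcoc σ τ)
      rw [h1, map_add, hl (P σ) ⟨σ, rfl⟩ ⟨b τ, hW.2 τ⟩ ⟨P σ (b τ), hW.1 σ _ (hW.2 τ)⟩ rfl]) (by
      intro σ hσ
      show F (b σ) = 0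
      have h2 : (⟨b σ, hW.2 σ⟩ : W) = 0 := Subtype.ext (hZ σ hσ)
      rw [hF, h2, map_zero])
    have hmem : (LinearMap.ker l).map W.subtype ∈ 𝒲 := by
      refine ⟨?_, fun σ => ?_⟩
      · rintro σ _ ⟨w, hw, rfl⟩
        refine ⟨⟨P σ w, hW.1 σ w w.2⟩, ?_, rfl⟩
        show l _ = 0
        rw [hl (P σ) ⟨σ, rfl⟩ w ⟨P σ w, hW.1 σ w w.2⟩ rfl]
        exact hw
      · refine ⟨⟨b σ, hW.2 σ⟩, ?_, rfl⟩
        show l _ = 0
        rw [← hF]
        exact h0 σ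
    have hle : (LinearMap.ker l).map W.subtype ≤ W := by
      rintro _ ⟨w, -, rfl⟩
      exact w.2
    have hge := hmin hmem hle
    apply hl0
    ext w
    obtain ⟨w', hw', he⟩ := hge w.2
    have h3 : w' = w := Subtype.ext he
    rw [← h3]
    exact hw'
  intro σ
  have h1 := hW.2 σ
  rw [hbot] at h1
  exact (Submodule.mem_bot _).1 h1

end Pool.Agent.H517.M
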