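import Pool.Agent.H517.M.Lat

/-!
# Induced representations and cocycles
-/

set_option autoImplicit false
set_option linter.unusedSectionVars false

namespace Pool.Agent.H517.M

open scoped Classical

variable {p : ℕ} [hp : Fact p.Prime]

section ind

variable {G : Type*} [Group G] {H : Subgroup G} {X : Type*} [Fintype X] [DecidableEq X]

/-- the representatives of the cosets -/
noncomputable def rr (x : G ⧸ H) : G := x.out

lemma rr_mk (x : G ⧸ H) : ((rr x : G) : G ⧸ H) = x := Quotient.out_eq' x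

lemma mem_iff (g : G) (x y : G ⧸ H) : (rr x)⁻¹ * g * rr y ∈ H ↔ y = g⁻¹ • x := by
  have h1 : (rr x)⁻¹ * g * rr y ∈ H ↔ ((rr x : G) : G ⧸ H) = ((g * rr y : G) : G ⧸ H) := by
    rw [QuotientGroup.eq, mul_assoc]
  rw [h1, rr_mk]
  have h2 : ((g * rr y : G) : G ⧸ H) = g • y := by
    conv_rhs => rw [← rr_mk y]
    rfl
  rw [h2]
  constructor
  · rintro rfl
    rw [inv_smul_smul]
  · rintro rfl
    rw [smul_inv_smul]

/-- the cocycle of the cosets -/
noncomputable def kk (g : G) (x : G ⧸ H) : H := ⟨(rr x)⁻¹ * g * rr (g⁻¹ • x), (mem_iff g x _).2 rfl⟩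

lemma kk_val (g : G) (x : G ⧸ H) : (kk g x : G) = (rr x)⁻¹ * g * rr (g⁻¹ • x) := rfl

lemma kk_mul (g g' : G) (x : G ⧸ H) : kk (g * g') x = kk g x * kk g' (g⁻¹ • x) := by
  apply Subtype.ext
  rw [Subgroup.coe_mul, kk_val, kk_val, kk_val, mul_inv_rev, mul_smul]
  group

/-- extension by zero -/
noncomputable def ez {B : Type*} [Zero B] (f : H → B) (g : G) : B := if h : g ∈ H then f ⟨g, h⟩ else 0

lemma ez_of {B : Type*} [Zero B] (f : H → B) (h : H) : ez f (h : G) = f h := dif_pos h.2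

lemma ez_not {B : Type*} [Zero B] (f : H → B) {g : G} (h : g ∉ H) : ez f g = 0 := dif_neg h

lemma ez_kk {B : Type*} [Zero B] (f : H → B) (g : G) (x : G ⧸ H) :
    ez f ((rr x)⁻¹ * g * rr (g⁻¹ • x)) = f (kk g x) := ez_of f (kk g x)

/-- the induced representation, as a function -/
noncomputable def indf (ρ : H →* Matrix X X ℤ_[p]) (g : G) :
    Matrix ((G ⧸ H) × X) ((G ⧸ H) × X) ℤ_[p] :=
  fun x y => ez ρ ((rr x.1)⁻¹ * g * rr y.1) x.2 y.2

lemma indf_ne (ρ : H →* Matrix X X ℤ_[p]) (g : G) (x y : (G ⧸ H) × X) (h : y.1 ≠ g⁻¹ • x.1) :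
    indf ρ g x y = 0 := by
  unfold indf
  rw [ez_not ρ (fun h1 => h ((mem_iff g x.1 y.1).1 h1))]
  rfl

lemma indf_eq (ρ : H →* Matrix X X ℤ_[p]) (g : G) (x : G ⧸ H) (i j : X) :
    indf ρ g (x, i) (g⁻¹ • x, j) = ρ (kk g x) i j := by
  unfold indf
  rw [ez_kk]

variable [TopologicalSpace G] [Fintype (G ⧸ H)]

/-- the induced representation -/
noncomputable def ind (ρ : H →* Matrix X X ℤ_[p]) : G →* Matrix ((G ⧸ H) × X) ((G ⧸ H) × X) ℤ_[p] where
  toFun := indf ρ
  map_one' := by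
    ext ⟨x, i⟩ ⟨y, j⟩
    by_cases h : y = x
    · subst h
      have h1 := indf_eq ρ 1 y i j
      rw [inv_one, one_smul] at h1
      rw [h1]
      have h2 : kk (1 : G) y = 1 := by
        apply Subtype.ext
        rw [kk_val, inv_one, one_smul]
        simp
      rw [h2, map_one, Matrix.one_apply, Matrix.one_apply]
      simp
    · rw [indf_ne ρ 1 (x, i) (y, j) (by rw [inv_one, one_smul]; exact h), Matrix.one_apply,
        if_neg]
      intro h1
      exact h (congrArg Prod.fst h1).symm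
  map_mul' g g' := by
    ext ⟨x, i⟩ ⟨y, j⟩
    rw [Matrix.mul_apply, Fintype.sum_prod_type, Finset.sum_eq_single (g⁻¹ • x)]
    · by_cases h : y = g'⁻¹ • (g⁻¹ • x)
      · subst h
        have h1 := indf_eq ρ (g * g') x i j
        rw [mul_inv_rev, mul_smul] at h1
        rw [h1, kk_mul, map_mul, Matrix.mul_apply]
        exact Finset.sum_congr rfl fun l _ => by rw [indf_eq, indf_eq]
      · rw [indf_ne ρ (g * g') (x, i) (y, j) (by rw [mul_inv_rev, mul_smul]; exact h)]
        symm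
        exact Finset.sum_eq_zero fun l _ => by
          rw [indf_ne ρ g' (g⁻¹ • x, l) (y, j) h, mul_zero]
    · intro z _ hz
      exact Finset.sum_eq_zero fun l _ => by rw [indf_ne ρ g (x, i) (z, l) hz, zero_mul]
    · intro h
      exact absurd (Finset.mem_univ _) h

lemma ind_apply (ρ : H →* Matrix X X ℤ_[p]) (g : G) : ind ρ g = indf ρ g := rfl

/-- the action of the induced representation -/
lemma av_ind (ρ : H →* Matrix X X ℤ_[p]) (g : G) (v : (G ⧸ H) × X → ℚ_[p]) (x : G ⧸ H) (i : X) :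
    av (ind ρ) g v (x, i) = av ρ (kk g x) (fun j => v (g⁻¹ • x, j)) i := by
  show ∑ y : (G ⧸ H) × X, ((indf ρ g (x, i) y : ℤ_[p]) : ℚ_[p]) * v y =
    ∑ j, ((ρ (kk g x) i j : ℤ_[p]) : ℚ_[p]) * v (g⁻¹ • x, j)
  rw [Fintype.sum_prod_type, Finset.sum_eq_single (g⁻¹ • x)]
  · exact Finset.sum_congr rfl fun l _ => by rw [indf_eq]
  · intro z _ hz
    exact Finset.sum_eq_zero fun l _ => by
      rw [indf_ne ρ g (x, i) (z, l) hz, PadicInt.coe_zero, zero_mul]
  · intro h
    exact absurd (Finset.mem_univ _) h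

/-- the induced cocycle -/
noncomputable def indc (c : H → X → ℚ_[p]) (g : G) (x : (G ⧸ H) × X) : ℚ_[p] := c (kk g x.1) x.2

lemma indc_mul {ρ : H →* Matrix X X ℤ_[p]} {c : H → X → ℚ_[p]}
    (hc : ∀ σ τ, c (σ * τ) = c σ + av ρ σ (c τ)) (g g' : G) :
    indc c (g * g') = indc c g + av (ind ρ) g (indc c g') := by
  funext ⟨x, i⟩
  show c (kk (g * g') x) i = c (kk g x) i + av (ind ρ) g (indc c g') (x, i)
  rw [kk_mul, hc, av_ind]
  rfl

lemma indc_sum (c : H → X → ℚ_[p]) (g : G) (x : G ⧸ H) (i : X) :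
    indc c g (x, i) = ∑ y : G ⧸ H, ez c ((rr x)⁻¹ * g * rr y) i := by
  rw [Finset.sum_eq_single (g⁻¹ • x)]
  · rw [ez_kk]
    rfl
  · intro z _ hz
    rw [ez_not c (fun h1 => hz ((mem_iff g x z).1 h1))]
    rfl
  · intro h
    exact absurd (Finset.mem_univ _) h

variable [IsTopologicalGroup G]

lemma ez_cont (hH : IsOpen (H : Set G)) {B : Type*} [Zero B] [TopologicalSpace B] {f : H → B}
    (hf : Continuous f) : Continuous (ez f) := by
  have hcl : IsClosed (H : Set G) := Subgroup.isClosed_of_isOpen H hH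
  rw [continuous_iff_continuousAt]
  intro g
  by_cases hg : g ∈ H
  · have h1 : ContinuousOn (ez f) (H : Set G) := by
      rw [continuousOn_iff_continuous_domRestrict]
      have : (H : Set G).domRestrict (ez f) = f := by
        funext h
        exact ez_of f h
      rw [this]
      exact hf
    exact h1.continuousAt (hH.mem_nhds hg)
  · have h2 : ez f =ᶠ[nhds g] fun _ => (0 : B) := by
      filter_upwards [hcl.isOpen_compl.mem_nhds hg] with x hx
      exact ez_not f hx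
    exact (continuousAt_const).congr h2.symm

lemma ind_cont (hH : IsOpen (H : Set G)) {ρ : H →* Matrix X X ℤ_[p]}
    (hρ : ∀ i j, Continuous fun σ => ρ σ i j) (x y : (G ⧸ H) × X) :
    Continuous fun g => ind ρ g x y := by
  have h1 : Continuous (ez (fun σ : H => ρ σ)) := by
    refine ez_cont hH ?_
    exact continuous_matrix hρ
  have h2 : Continuous fun g : G => ez (fun σ : H => ρ σ) ((rr x.1)⁻¹ * g * rr y.1) :=
    h1.comp ((continuous_const.mul continuous_id).mul continuous_const)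
  exact (h2.matrix_elem x.2 y.2)

lemma indc_cont (hH : IsOpen (H : Set G)) {c : H → X → ℚ_[p]} (hc : Continuous c) :
    Continuous (indc c) := by
  refine continuous_pi fun x => ?_
  have h1 : (fun g => indc c g x) = fun g => ∑ y : G ⧸ H, ez c ((rr x.1)⁻¹ * g * rr y) x.2 := by
    funext g
    exact indc_sum c g x.1 x.2
  rw [h1]
  refine continuous_finsetSum _ fun y _ => ?_
  have h2 : Continuous fun g : G => ez c ((rr x.1)⁻¹ * g * rr y) :=
    (ez_cont hH hc).comp ((continuous_const.mul continuous_id).mul continuous_const)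
  exact (continuous_apply x.2).comp h2

end ind

section mackey

variable {G : Type*} [Group G] [TopologicalSpace G] {H : Subgroup G} {X : Type*} [Fintype X]
  [DecidableEq X] [Fintype (G ⧸ H)]

/-- the restriction of an induced cocycle to a subgroup -/
theorem mackey {ρ : H →* Matrix X X ℤ_[p]} {c : H → X → ℚ_[p]}
    (hc : ∀ σ τ, c (σ * τ) = c σ + av ρ σ (c τ)) (D : Subgroup G)
    (hD : ∀ x : G ⧸ H, ∃ y, ∀ h : H, rr x * h * (rr x)⁻¹ ∈ D → c h = av ρ h y - y) :
    ∃ Y, ∀ δ ∈ D, indc c δ = av (ind ρ) δ Y - Y := by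
  choose y hy using hD
  let x0 : G ⧸ H → G ⧸ H := fun x => (Quotient.mk (MulAction.orbitRel D (G ⧸ H)) x).out
  have hδ : ∀ x, ∃ δ : G, δ ∈ D ∧ δ⁻¹ • x = x0 x := by
    intro x
    have h1 : (MulAction.orbitRel D (G ⧸ H)).r (x0 x) x :=
      Quotient.exact (Quotient.out_eq (Quotient.mk (MulAction.orbitRel D (G ⧸ H)) x))
    obtain ⟨⟨g, hg⟩, h2⟩ := h1
    refine ⟨g⁻¹, D.inv_mem hg, ?_⟩
    rw [inv_inv]
    exact h2
  choose δ hδD hδx using hδ
  have hx0 : ∀ g ∈ D, ∀ x, x0 (g⁻¹ • x) = x0 x := by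
    intro g hg x
    have h1 : Quotient.mk (MulAction.orbitRel D (G ⧸ H)) (g⁻¹ • x) =
        Quotient.mk (MulAction.orbitRel D (G ⧸ H)) x := by
      apply Quotient.sound
      exact ⟨⟨g⁻¹, D.inv_mem hg⟩, rfl⟩
    show (Quotient.mk (MulAction.orbitRel D (G ⧸ H)) (g⁻¹ • x)).out = _
    rw [h1]
  let Y : (G ⧸ H) → X → ℚ_[p] := fun x => av ρ (kk (δ x) x) (y (x0 x)) - c (kk (δ x) x)
  refine ⟨fun z => Y z.1 z.2, fun g hg => ?_⟩
  funext ⟨x, i⟩
  show c (kk g x) i = av (ind ρ) g (fun z => Y z.1 z.2) (x, i) - Y x i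
  rw [av_ind]
  show c (kk g x) i = av ρ (kk g x) (Y (g⁻¹ • x)) i - Y x i
  have key : c (kk g x) = av ρ (kk g x) (Y (g⁻¹ • x)) - Y x := by
    have hxx := hx0 g hg x
    set x' := g⁻¹ • x with hx'
    -- the element of the stabilizer
    set m : H := (kk g x * kk (δ x') x')⁻¹ * kk (δ x) x with hm
    have hm' : kk (δ x) x = kk g x * kk (δ x') x' * m := by rw [hm]; group
    have hmD : rr (x0 x) * (m : G) * (rr (x0 x))⁻¹ ∈ D := by
      have h1 : rr (x0 x) * (m : G) * (rr (x0 x))⁻¹ = (g * δ x')⁻¹ * δ x := by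
        rw [hm, Subgroup.coe_mul, Subgroup.coe_inv, Subgroup.coe_mul, kk_val, kk_val, kk_val, ← hx',
          hδx, hδx, hxx]
        group
      rw [h1]
      exact D.mul_mem (D.inv_mem (D.mul_mem hg (hδD x'))) (hδD x)
    have h2 := hy (x0 x) m hmD
    show c (kk g x) = av ρ (kk g x) (av ρ (kk (δ x') x') (y (x0 x')) - c (kk (δ x') x')) -
      (av ρ (kk (δ x) x) (y (x0 x)) - c (kk (δ x) x))
    rw [hm', hc, hc, av_mul ((kk g x) * (kk (δ x') x')) m, h2, hxx, av_sub, av_sub, ← av_mul]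
    abel
  rw [key]
  rfl

/-- back from the induced cocycle -/
theorem of_ind {ρ : H →* Matrix X X ℤ_[p]} {c : H → X → ℚ_[p]} {Y : (G ⧸ H) × X → ℚ_[p]}
    (h : ∀ g : G, indc c g = av (ind ρ) g Y - Y) : ∃ y, ∀ σ, c σ = av ρ σ y - y := by
  set x1 : G ⧸ H := ((1 : G) : G ⧸ H) with hx1
  have hr1 : rr x1 ∈ H := by
    have h1 : ((rr x1 : G) : G ⧸ H) = ((1 : G) : G ⧸ H) := rr_mk x1
    have h2 := QuotientGroup.eq.1 h1
    rw [mul_one] at h2
    exact inv_mem_iff.1 h2
  refine ⟨fun j => Y (x1, j), fun σ => ?_⟩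
  set g : G := rr x1 * σ * (rr x1)⁻¹ with hg
  have hgH : g ∈ H := H.mul_mem (H.mul_mem hr1 σ.2) (H.inv_mem hr1)
  have hgx : g⁻¹ • x1 = x1 := by
    show ((g⁻¹ * 1 : G) : G ⧸ H) = ((1 : G) : G ⧸ H)
    rw [QuotientGroup.eq]
    simpa using hgH
  have hk : kk g x1 = σ := by
    apply Subtype.ext
    rw [kk_val, hgx, hg]
    group
  funext i
  have h1 := congrFun (h g) (x1, i)
  have h2 : indc c g (x1, i) = c σ i := by
    show c (kk g x1) i = _
    rw [hk]
  rw [h2] at h1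
  rw [h1]
  show av (ind ρ) g Y (x1, i) - Y (x1, i) = _
  rw [av_ind, hk, hgx]
  rfl

end mackey

end Pool.Agent.H517.M
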