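import Pool.Agent.H517.M.Dev

/-!
# Cocycles with values in `p`-adic representations whose reduction is unipotent
-/

set_option autoImplicit false
set_option linter.unusedSectionVars false

namespace Pool.Agent.H517.M

open scoped Classical

variable {p : ℕ} [hp : Fact p.Prime]

/-- the reduction of a `p`-adic integer is locally constant -/
lemma toZMod_of_near {a b : ℤ_[p]} (h : ‖a - b‖ < 1) : PadicInt.toZMod a = PadicInt.toZMod b := by
  have h1 : a - b ∈ RingHom.ker (PadicInt.toZMod (p := p)) := by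
    rw [PadicInt.ker_toZMod, IsLocalRing.mem_maximalIdeal, mem_nonunits_iff, PadicInt.isUnit_iff]
    exact h.ne
  rw [RingHom.mem_ker, map_sub, sub_eq_zero] at h1
  exact h1

section lat

variable {G : Type*} [Group G] [TopologicalSpace G] {X : Type*} [Fintype X] [DecidableEq X]

/-- the action on `ℚ_p ^ X` -/
noncomputable def av (A : G →* Matrix X X ℤ_[p]) (σ : G) (v : X → ℚ_[p]) : X → ℚ_[p] :=
  ((A σ).map (fun z : ℤ_[p] => (z : ℚ_[p]))).mulVec v

variable {A : G →* Matrix X X ℤ_[p]}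

lemma av_eq (σ : G) : (A σ).map (fun z : ℤ_[p] => (z : ℚ_[p])) =
    (PadicInt.Coe.ringHom (p := p)).mapMatrix (A σ) := rfl

lemma av_one (v : X → ℚ_[p]) : av A 1 v = v := by
  unfold av
  rw [av_eq, map_one, map_one, Matrix.one_mulVec]

lemma av_mul (σ τ : G) (v : X → ℚ_[p]) : av A (σ * τ) v = av A σ (av A τ v) := by
  unfold av
  rw [av_eq, av_eq, av_eq, map_mul, map_mul, Matrix.mulVec_mulVec]

lemma av_add (σ : G) (v w : X → ℚ_[p]) : av A σ (v + w) = av A σ v + av A σ w :=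
  Matrix.mulVec_add _ _ _

lemma av_sub (σ : G) (v w : X → ℚ_[p]) : av A σ (v - w) = av A σ v - av A σ w :=
  Matrix.mulVec_sub _ _ _

lemma av_smul (σ : G) (a : ℚ_[p]) (v : X → ℚ_[p]) : av A σ (a • v) = a • av A σ v :=
  Matrix.mulVec_smul _ _ _

lemma av_of_one {σ : G} (h : A σ = 1) (v : X → ℚ_[p]) : av A σ v = v := by
  unfold av
  rw [av_eq, h, map_one, Matrix.one_mulVec]

lemma av_cont (hA : ∀ i j, Continuous fun σ => A σ i j) (v : X → ℚ_[p]) :
    Continuous fun σ => av A σ v := by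
  refine continuous_pi fun i => ?_
  show Continuous fun σ => ∑ j, ((A σ i j : ℤ_[p]) : ℚ_[p]) * v j
  exact continuous_finsetSum _ fun j _ =>
    (continuous_subtype_val.comp (hA i j)).mul continuous_const

/-- the reduction -/
noncomputable def red (A : G →* Matrix X X ℤ_[p]) :
    G →* ((X → ZMod p) ≃ₗ[ZMod p] (X → ZMod p)) :=
  (LinearMap.GeneralLinearGroup.generalLinearEquiv (ZMod p) (X → ZMod p)).toMonoidHom.comp
    (Matrix.GeneralLinearGroup.toLin.toMonoidHom.comp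
      ((MonoidHom.toHomUnits ((PadicInt.toZMod (p := p)).mapMatrix.toMonoidHom.comp A))))

lemma red_apply (σ : G) (v : X → ZMod p) :
    red A σ v = ((A σ).map (PadicInt.toZMod (p := p))).mulVec v := rfl

/-- the values of `c` as `p`-adic integers -/
noncomputable def tz (z : ℚ_[p]) : ℤ_[p] := if h : ‖z‖ ≤ 1 then (⟨z, h⟩ : ℤ_[p]) else 0

lemma tz_coe {z : ℚ_[p]} (h : ‖z‖ ≤ 1) : ((tz z : ℤ_[p]) : ℚ_[p]) = z := by
  have e : tz z = (⟨z, h⟩ : ℤ_[p]) := dif_pos h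
  rw [e]

/-- **Cocycles that are zero on `Z`.** -/
theorem lat [CompactSpace G]
    (hr : ∀ σ, ∃ k, ∀ i j, (p : ℤ_[p]) ∣ (A σ ^ p ^ k) i j - (1 : Matrix X X ℤ_[p]) i j) (Z : Set G)
    (hyp : ∀ h : G → ZMod p, IsLocallyConstant h → (∀ σ τ, h (σ * τ) = h σ + h τ) →
      (∀ σ ∈ Z, h σ = 0) → ∀ σ, h σ = 0)
    (c : G → X → ℚ_[p]) (hc : Continuous c) (hcoc : ∀ σ τ, c (σ * τ) = c σ + av A σ (c τ))
    (hZ : ∀ σ ∈ Z, c σ = 0) : ∀ σ, c σ = 0 := by
  by_contra hcon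
  push Not at hcon
  obtain ⟨σ₀, hσ₀⟩ := hcon
  obtain ⟨σ₁, -, h1⟩ := isCompact_univ.exists_isMaxOn (Set.univ_nonempty (α := G))
    (continuous_norm.comp hc).continuousOn
  have hmax : ∀ σ, ‖c σ‖ ≤ ‖c σ₁‖ := fun σ => h1 (Set.mem_univ σ)
  have hpos : 0 < ‖c σ₁‖ := (norm_pos_iff.2 hσ₀).trans_le (hmax σ₀)
  -- an entry of maximal norm
  obtain ⟨i, hi⟩ : ∃ i, ‖c σ₁ i‖ = ‖c σ₁‖ := by
    by_contra hcon
    push Not at hcon
    have h2 : ‖c σ₁‖ < ‖c σ₁‖ := by
      rw [pi_norm_lt_iff hpos]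
      intro i
      exact lt_of_le_of_ne (norm_le_pi_norm _ i) (hcon i)
    exact lt_irrefl _ h2
  set a : ℚ_[p] := c σ₁ i with ha
  have ha0 : a ≠ 0 := by
    intro h0
    rw [← hi, h0, norm_zero] at hpos
    exact lt_irrefl _ hpos
  set c' : G → X → ℚ_[p] := fun σ => a⁻¹ • c σ with hc'
  have hc'1 : ∀ σ j, ‖c' σ j‖ ≤ 1 := by
    intro σ j
    rw [hc']
    show ‖a⁻¹ * c σ j‖ ≤ 1
    rw [norm_mul, norm_inv, hi, inv_mul_le_iff₀ hpos, mul_one]
    exact (norm_le_pi_norm _ j).trans (hmax σ)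
  have hcc' : Continuous c' := hc.const_smul a⁻¹
  have hcoc' : ∀ σ τ, c' (σ * τ) = c' σ + av A σ (c' τ) := by
    intro σ τ
    show a⁻¹ • c (σ * τ) = a⁻¹ • c σ + av A σ (a⁻¹ • c τ)
    rw [hcoc, smul_add, av_smul]
  let b : G → X → ZMod p := fun σ j => PadicInt.toZMod (tz (c' σ j))
  have hb : IsLocallyConstant b := by
    rw [IsLocallyConstant.iff_exists_open]
    intro σ
    have hopen : IsOpen (c' ⁻¹' Metric.ball (c' σ) 1) := Metric.isOpen_ball.preimage hcc'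
    refine ⟨_, hopen, Metric.mem_ball_self one_pos, fun τ hτ => ?_⟩
    funext j
    apply toZMod_of_near
    have h2 : ‖c' τ - c' σ‖ < 1 := by
      rw [← dist_eq_norm]
      exact hτ
    have h3 : ‖(c' τ - c' σ) j‖ < 1 := lt_of_le_of_lt (norm_le_pi_norm _ j) h2
    rw [PadicInt.norm_def, PadicInt.coe_sub, tz_coe (hc'1 τ j), tz_coe (hc'1 σ j)]
    exact h3
  have hbc : ∀ σ τ, b (σ * τ) = b σ + red A σ (b τ) := by
    intro σ τ
    funext j
    have h2 : tz (c' (σ * τ) j) = tz (c' σ j) + ∑ l, A σ j l * tz (c' τ l) := by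
      apply Subtype.ext
      show ((tz (c' (σ * τ) j) : ℤ_[p]) : ℚ_[p]) =
        ((tz (c' σ j) + ∑ l, A σ j l * tz (c' τ l) : ℤ_[p]) : ℚ_[p])
      have h4 : ((∑ l, A σ j l * tz (c' τ l) : ℤ_[p]) : ℚ_[p]) =
          ∑ l, ((A σ j l : ℤ_[p]) : ℚ_[p]) * ((tz (c' τ l) : ℤ_[p]) : ℚ_[p]) := by
        have h5 := map_sum (PadicInt.Coe.ringHom (p := p)) (fun l => A σ j l * tz (c' τ l))
          Finset.univ
        refine h5.trans (Finset.sum_congr rfl fun l _ => ?_)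
        exact map_mul (PadicInt.Coe.ringHom (p := p)) _ _
      rw [PadicInt.coe_add, h4, tz_coe (hc'1 _ j), tz_coe (hc'1 _ j), hcoc']
      show c' σ j + ∑ l, ((A σ j l : ℤ_[p]) : ℚ_[p]) * c' τ l = _
      congr 1
      exact Finset.sum_congr rfl fun l _ => by rw [tz_coe (hc'1 τ l)]
    show PadicInt.toZMod (tz (c' (σ * τ) j)) = PadicInt.toZMod (tz (c' σ j)) +
      ∑ l, PadicInt.toZMod (A σ j l) * PadicInt.toZMod (tz (c' τ l))
    rw [h2, map_add, map_sum]
    congr 1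
    exact Finset.sum_congr rfl fun l _ => map_mul _ _ _
  have hP : ∀ σ, ∃ k, (red A σ) ^ p ^ k = 1 := by
    intro σ
    obtain ⟨k, hk⟩ := hr σ
    refine ⟨k, ?_⟩
    rw [← map_pow]
    apply LinearEquiv.ext
    intro v
    rw [red_apply]
    have h2 : (A (σ ^ p ^ k)).map (PadicInt.toZMod (p := p)) = 1 := by
      ext i j
      rw [Matrix.map_apply, map_pow]
      obtain ⟨t, ht⟩ := hk i j
      have h3 : (A σ ^ p ^ k) i j = (1 : Matrix X X ℤ_[p]) i j + p * t := by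
        linear_combination ht
      rw [h3, map_add, map_mul, map_natCast, CharP.cast_eq_zero, zero_mul, add_zero,
        Matrix.one_apply, Matrix.one_apply]
      split_ifs
      · exact map_one _
      · exact map_zero _
    rw [h2, Matrix.one_mulVec]
    rfl
  have hbZ : ∀ σ ∈ Z, b σ = 0 := by
    intro σ hσ
    funext j
    show PadicInt.toZMod (tz (a⁻¹ * c σ j)) = 0
    rw [hZ σ hσ]
    have h2 : tz (a⁻¹ * (0 : X → ℚ_[p]) j) = 0 := by
      apply Subtype.ext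
      show ((tz (a⁻¹ * (0 : X → ℚ_[p]) j) : ℤ_[p]) : ℚ_[p]) = _
      rw [tz_coe]
      · simp
      · simp
    rw [h2, map_zero]
  have h0 := dev (red A) hP Z hyp b hb hbc hbZ σ₁
  have h2 := congrFun h0 i
  have h3 : b σ₁ i = 1 := by
    show PadicInt.toZMod (tz (a⁻¹ * c σ₁ i)) = 1
    have h4 : tz (a⁻¹ * c σ₁ i) = 1 := by
      apply Subtype.ext
      show ((tz (a⁻¹ * c σ₁ i) : ℤ_[p]) : ℚ_[p]) = _
      rw [tz_coe]
      · rw [← ha, inv_mul_cancel₀ ha0]
        simp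
      · rw [← ha, inv_mul_cancel₀ ha0, norm_one]
    rw [h4, map_one]
  rw [h3] at h2
  exact one_ne_zero h2

end lat

end Pool.Agent.H517.M
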